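import Pool.Agent.Helper51.EA.Defs
import Pool.Agent.Helper96.RL.Orth
import Pool.Agent.Helper5.RM.HC4
import Pool.Agent.Helper5.RM.LG5

/-!
# Project EA (MP_b6b996_nt), blocks E2 and E3: orthogonality and the maximum of the cofactor sums
-/

set_option autoImplicit false

namespace Pool.Agent.Helper51.EA

open Finset Pool.Agent.Helper5.RM Pool.Agent.Helper5.RS

open Pool.Agent.Helper11.RL (re_e sum_cos_zero cos_mul_cos')

lemma XG_re96 (N : ℕ) (A : Finset ℕ) (θ : ℝ) (p : ℕ) (T : Finset ℕ) :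
    (XG N A θ p T).re = ∑ m ∈ MG N A p, rf T m * Real.cos (2 * Real.pi * ((((p * m : ℕ) : ℤ) : ℝ) * θ)) := by
  unfold XG
  rw [Complex.re_sum]
  refine Finset.sum_congr rfl fun m _ => ?_
  rw [Complex.re_ofReal_mul, re_e]
  congr 3
  push_cast
  ring

lemma XG_mul96 (N J : ℕ) (A A' T : Finset ℕ) (p p' : ℕ) :
    ∑ j ∈ range J, (XG N A ((j : ℝ) / J) p T).re * (XG N A' ((j : ℝ) / J) p' T).re =
      ∑ m ∈ MG N A p, ∑ m' ∈ MG N A' p', rf T m * rf T m' *
        ((∑ j ∈ range J, Real.cos (2 * Real.pi * ((((p * m : ℕ) : ℤ) - ((p' * m' : ℕ) : ℤ) : ℤ) * ((j : ℝ) / J))) +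
          ∑ j ∈ range J, Real.cos (2 * Real.pi * ((((p * m : ℕ) : ℤ) + ((p' * m' : ℕ) : ℤ) : ℤ) * ((j : ℝ) / J)))) / 2) := by
  have h1 : ∀ j ∈ range J, (XG N A ((j : ℝ) / J) p T).re * (XG N A' ((j : ℝ) / J) p' T).re =
      ∑ m ∈ MG N A p, ∑ m' ∈ MG N A' p', rf T m * rf T m' *
        ((Real.cos (2 * Real.pi * ((((p * m : ℕ) : ℤ) - ((p' * m' : ℕ) : ℤ) : ℤ) * ((j : ℝ) / J))) +
          Real.cos (2 * Real.pi * ((((p * m : ℕ) : ℤ) + ((p' * m' : ℕ) : ℤ) : ℤ) * ((j : ℝ) / J)))) / 2) := by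
    intro j _
    rw [XG_re96, XG_re96, Finset.sum_mul_sum]
    refine Finset.sum_congr rfl fun m _ => Finset.sum_congr rfl fun m' _ => ?_
    rw [← cos_mul_cos']
    ring
  rw [Finset.sum_congr rfl h1, Finset.sum_comm]
  refine Finset.sum_congr rfl fun m _ => ?_
  rw [Finset.sum_comm]
  refine Finset.sum_congr rfl fun m' _ => ?_
  rw [← Finset.mul_sum, ← Finset.sum_div, Finset.sum_add_distrib]

lemma MG_le96 {N : ℕ} {A : Finset ℕ} {p m : ℕ} (hm : m ∈ MG N A p) : 1 ≤ m ∧ p * m ≤ N := by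
  unfold MG at hm
  rw [Finset.mem_filter, Finset.mem_Icc] at hm
  exact ⟨hm.1.1, (Nat.mul_le_mul_left p hm.1.2).trans (Nat.mul_div_le N p)⟩

/-- E2 -/
theorem XG_orth (N y J : ℕ) (hJ : 2 * N < J) (T : Finset ℕ) {p p' : ℕ} (hp : p.Prime) (hp' : p'.Prime)
    (h1 : y < p) (_h2 : y < p') (hne : p ≠ p') :
    ∑ j ∈ range J, (XG N (Sy N y) ((j : ℝ) / J) p T).re * (XG N (Sy N y) ((j : ℝ) / J) p' T).re = 0 := by
  rw [XG_mul96]
  refine Finset.sum_eq_zero fun m hm => Finset.sum_eq_zero fun m' hm' => ?_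
  obtain ⟨hm1, hm2⟩ := MG_le96 hm
  obtain ⟨hm3, hm4⟩ := MG_le96 hm'
  have hpm : 1 ≤ p * m := Nat.mul_pos hp.pos hm1
  have hpm' : 1 ≤ p' * m' := Nat.mul_pos hp'.pos hm3
  have hJ0 : 0 < J := by omega
  have hne2 : p * m ≠ p' * m' := by
    intro h
    have hd : p ∣ p' * m' := ⟨m, h.symm⟩
    rcases (Nat.Prime.dvd_mul hp).1 hd with hd | hd
    · exact hne ((Nat.prime_dvd_prime_iff_eq hp hp').1 hd)
    · unfold MG Sy at hm'
      rw [Finset.mem_filter, Finset.mem_filter] at hm'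
      have := hm'.2.1.2 p (Nat.mem_primeFactors.2 ⟨hp, hd, by omega⟩)
      omega
  have hz1 : ¬ (J : ℤ) ∣ (((p * m : ℕ) : ℤ) - ((p' * m' : ℕ) : ℤ)) := by
    intro h
    have h3 : (((p * m : ℕ) : ℤ) - ((p' * m' : ℕ) : ℤ)) = 0 := by
      apply Int.eq_zero_of_abs_lt_dvd h
      rw [abs_lt]
      constructor <;> omega
    apply hne2
    omega
  have hz2 : ¬ (J : ℤ) ∣ (((p * m : ℕ) : ℤ) + ((p' * m' : ℕ) : ℤ)) := by
    intro h
    have h3 : (((p * m : ℕ) : ℤ) + ((p' * m' : ℕ) : ℤ)) = 0 := by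
      apply Int.eq_zero_of_abs_lt_dvd h
      rw [abs_lt]
      constructor <;> omega
    omega
  rw [sum_cos_zero hJ0 hz1, sum_cos_zero hJ0 hz2]
  ring

theorem XG_norm (N J : ℕ) (hJ : 2 * N < J) (A T : Finset ℕ) {p : ℕ} (hp : 1 ≤ p) :
    ∑ j ∈ range J, (XG N A ((j : ℝ) / J) p T).re ^ 2 ≤ J * ((N / p : ℕ) : ℝ) := by
  have hJ0 : 0 < J := by omega
  have e1 : ∑ j ∈ range J, (XG N A ((j : ℝ) / J) p T).re ^ 2 =
      ∑ j ∈ range J, (XG N A ((j : ℝ) / J) p T).re * (XG N A ((j : ℝ) / J) p T).re :=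
    Finset.sum_congr rfl fun j _ => sq _
  rw [e1, XG_mul96]
  have h1 : ∀ m ∈ MG N A p, ∑ m' ∈ MG N A p, rf T m * rf T m' *
      ((∑ j ∈ range J, Real.cos (2 * Real.pi * ((((p * m : ℕ) : ℤ) - ((p * m' : ℕ) : ℤ) : ℤ) * ((j : ℝ) / J))) +
        ∑ j ∈ range J, Real.cos (2 * Real.pi * ((((p * m : ℕ) : ℤ) + ((p * m' : ℕ) : ℤ) : ℤ) * ((j : ℝ) / J)))) / 2) ≤ J := by
    intro m hm
    obtain ⟨hm1, hm2⟩ := MG_le96 hm
    have hpm : 1 ≤ p * m := Nat.mul_pos hp hm1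
    rw [Finset.sum_eq_single m]
    · have hz2 : ¬ (J : ℤ) ∣ (((p * m : ℕ) : ℤ) + ((p * m : ℕ) : ℤ)) := by
        intro h
        have h3 : (((p * m : ℕ) : ℤ) + ((p * m : ℕ) : ℤ)) = 0 := by
          apply Int.eq_zero_of_abs_lt_dvd h
          rw [abs_lt]
          constructor <;> omega
        omega
      rw [sum_cos_zero hJ0 hz2, sub_self]
      simp only [Int.cast_zero, zero_mul, mul_zero, Real.cos_zero, Finset.sum_const, Finset.card_range,
        nsmul_eq_mul, mul_one, add_zero]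
      have h2 : rf T m * rf T m ≤ 1 := by
        have := abs_rf_le T m
        rw [← abs_mul_abs_self]
        nlinarith [abs_nonneg (rf T m)]
      have h3 : (0 : ℝ) ≤ J := by positivity
      nlinarith [mul_self_nonneg (rf T m)]
    · intro m' hm' hne
      obtain ⟨hm3, hm4⟩ := MG_le96 hm'
      have hpm' : 1 ≤ p * m' := Nat.mul_pos hp hm3
      have hne2 : p * m ≠ p * m' := fun h => hne (Nat.eq_of_mul_eq_mul_left hp h).symm
      have hz1 : ¬ (J : ℤ) ∣ (((p * m : ℕ) : ℤ) - ((p * m' : ℕ) : ℤ)) := by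
        intro h
        have h3 : (((p * m : ℕ) : ℤ) - ((p * m' : ℕ) : ℤ)) = 0 := by
          apply Int.eq_zero_of_abs_lt_dvd h
          rw [abs_lt]
          constructor <;> omega
        apply hne2
        omega
      have hz2 : ¬ (J : ℤ) ∣ (((p * m : ℕ) : ℤ) + ((p * m' : ℕ) : ℤ)) := by
        intro h
        have h3 : (((p * m : ℕ) : ℤ) + ((p * m' : ℕ) : ℤ)) = 0 := by
          apply Int.eq_zero_of_abs_lt_dvd h
          rw [abs_lt]
          constructor <;> omega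
        omega
      rw [sum_cos_zero hJ0 hz1, sum_cos_zero hJ0 hz2]
      ring
    · intro h
      exact absurd hm h
  refine (Finset.sum_le_sum h1).trans ?_
  rw [Finset.sum_const, nsmul_eq_mul, mul_comm]
  apply mul_le_mul_of_nonneg_left _ (by positivity)
  have h2 : (MG N A p).card ≤ N / p := by
    unfold MG
    refine (Finset.card_filter_le _ _).trans ?_
    rw [Nat.card_Icc, Nat.add_sub_cancel]
  exact_mod_cast h2

/-- E3 -/
theorem XG_max (N : ℕ) (A : Finset ℕ) (θ : ℝ) (p k : ℕ) (hk : 1 ≤ k) (hp : p ∈ PP N) (x : ℝ) (hx : 0 < x) :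
    pr (PP N) (fun T => x < ‖XG N A θ p T‖) ≤ ((N : ℝ) / p * LL N ^ (2 * k - 1) / x ^ 2) ^ k := by
  rw [mem_PP] at hp
  have hp0 : 0 < p := hp.1.pos
  have hN0 : 0 < N := lt_of_lt_of_le hp0 hp.2
  have hNp : 1 ≤ N / p := Nat.div_pos hp.2 hp0
  have h1 : av (PP N) (fun T => ‖XG N A θ p T‖ ^ (2 * k)) ≤ ((N : ℝ) / p * LL N ^ (2 * k - 1)) ^ k := by
    have h2 := hyper_sqf k hk (PP N) (MG N A p) (fun m hm => by
      unfold MG at hm
      rw [Finset.mem_filter, Finset.mem_Icc] at hm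
      exact ⟨hm.2.2.1, primeFactors_subset_PP (hm.1.2.trans (Nat.div_le_self N p))⟩) (fun m => e (p * m * θ))
    refine h2.trans ?_
    have hw : (2 * (k : ℝ) - 1) = ((2 * k - 1 : ℕ) : ℝ) := by
      rw [Nat.cast_sub (by omega)]
      push_cast
      ring
    rw [hw]
    apply pow_le_pow_left₀ (Finset.sum_nonneg fun m _ => by positivity)
    have h3 : ∑ m ∈ MG N A p, ((2 * k - 1 : ℕ) : ℝ) ^ om m * ‖e (p * m * θ)‖ ^ 2 ≤
        ∑ m ∈ (Finset.Icc 1 (N / p)).filter Squarefree, ((2 * k - 1 : ℕ) : ℝ) ^ om m := by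
      have h4 : ∀ m ∈ MG N A p, ((2 * k - 1 : ℕ) : ℝ) ^ om m * ‖e (p * m * θ)‖ ^ 2 = ((2 * k - 1 : ℕ) : ℝ) ^ om m := by
        intro m _
        rw [norm_e]
        ring
      rw [Finset.sum_congr rfl h4]
      refine Finset.sum_le_sum_of_subset_of_nonneg ?_ fun m _ _ => by positivity
      intro m hm
      unfold MG at hm
      rw [Finset.mem_filter] at hm
      exact Finset.mem_filter.2 ⟨hm.1, hm.2.2.1⟩
    refine h3.trans ((omega_sum (2 * k - 1) (N / p) hNp).trans ?_)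
    have hcast : ((N / p : ℕ) : ℝ) ≤ (N : ℝ) / p := Nat.cast_div_le
    have h1' : (1 : ℝ) ≤ ((N / p : ℕ) : ℝ) := by exact_mod_cast hNp
    have hle : ((N / p : ℕ) : ℝ) ≤ N := by exact_mod_cast Nat.div_le_self N p
    have hlog0 : 0 ≤ Real.log ((N / p : ℕ) : ℝ) := Real.log_nonneg h1'
    have hlog : Real.log ((N / p : ℕ) : ℝ) ≤ Real.log N := Real.log_le_log (by linarith) hle
    unfold LL
    apply mul_le_mul hcast (pow_le_pow_left₀ (by linarith) (by linarith) _) (by positivity) (by positivity)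
  have h2 := markov (S := PP N) (F := fun T => ‖XG N A θ p T‖ ^ (2 * k)) (c := x ^ (2 * k))
    (fun T _ => by positivity) (by positivity) h1
  refine (pr_mono fun T _ hT => ?_).trans (h2.trans (le_of_eq ?_))
  · exact pow_le_pow_left₀ hx.le hT.le (2 * k)
  · rw [div_pow, ← pow_mul]

end Pool.Agent.Helper51.EA
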