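import Pool.Agent.Helper51.EA.Defs
import Pool.Agent.Helper16.EA.D2
import Pool.Agent.Helper5.RM.ASP

/-!
# Project EA (MP_b6b996_nt), block D3: the upper bound, almost surely
-/

set_option autoImplicit false

namespace Pool.Agent.Helper51.EA

open Finset Pool.Agent.Helper5.RM Pool.Agent.Helper5.RS MeasureTheory ProbabilityTheory

lemma tg_nonneg96 (N : ℕ) : 0 ≤ tg N := Real.sqrt_nonneg _

/-- D3 from D1 -/
theorem upper_as_of (hU : ∀ (δ : ℝ), 0 < δ → ∀ ρ : ℕ, ∃ (c : ℝ) (i0 : ℕ), 0 < c ∧ ∀ i : ℕ, i0 ≤ i →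
      pr (PP (2 ^ (2 * 2 ^ i))) (fun T => ∃ a jj N : ℕ, 2 ^ i ≤ a ∧ a < 2 * 2 ^ i ∧ jj < 2 ^ (a + ρ) ∧
        2 ^ a ≤ N ∧ N ≤ 2 ^ (a + 1) ∧ (1 + δ) * tg N < ‖SN N T ((jj : ℝ) / (2 ^ (a + ρ) : ℕ))‖) ≤
        ((2 : ℝ) ^ i) ^ (-c))
    {Ω : Type*} [MeasurableSpace Ω] (μ : Measure Ω) [IsProbabilityMeasure μ]
    (ε : Nat.Primes → Ω → ℝ) (hm : ∀ p, Measurable (ε p)) (hi : iIndepFun ε μ)
    (h2 : ∀ p, μ {ω | ε p ω = -1} = 1 / 2) (h1 : ∀ p, μ {ω | ε p ω = 1} = 1 / 2) (δ : ℝ) (hδ : 0 < δ) :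
    ∀ᵐ ω ∂μ, ∃ N0 : ℕ, ∀ N : ℕ, N0 ≤ N → ∀ x : ℝ,
      ‖∑ n ∈ Finset.Icc 1 N, (rs (ext ε) ω n : ℂ) * e (n * x)‖ ≤ (1 + δ) * tg N := by
  classical
  -- parameters
  obtain ⟨d, hd⟩ : ∃ d : ℝ, d = min δ 1 / 3 := ⟨_, rfl⟩
  have hmin : 0 < min δ 1 := lt_min hδ one_pos
  have hd0 : 0 < d := by rw [hd]; positivity
  have hd1 : (1 + d) * (1 + d) ≤ 1 + δ := by
    have h3 : min δ 1 ≤ δ := min_le_left _ _
    have h4 : min δ 1 ≤ 1 := min_le_right _ _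
    have h5 : min δ 1 = 3 * d := by rw [hd]; ring
    rw [h5] at h3 h4
    nlinarith
  obtain ⟨ρ, hρ1, hρ2⟩ : ∃ ρ : ℕ, 4 ≤ ρ ∧ 16 / (2 : ℝ) ^ ρ ≤ d := by
    have ht : Filter.Tendsto (fun ρ : ℕ => 16 / (2 : ℝ) ^ ρ) Filter.atTop (nhds 0) :=
      tendsto_const_nhds.div_atTop (tendsto_pow_atTop_atTop_of_one_lt (by norm_num))
    obtain ⟨ρ, h⟩ := ((ht.eventually_le_const hd0).and (Filter.eventually_ge_atTop 4)).exists
    exact ⟨ρ, h.2, h.1⟩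
  obtain ⟨c, i0, hc, hu⟩ := hU d hd0 ρ
  -- all values are signs
  have hsign : ∀ᵐ ω ∂μ, ∀ p, ε p ω = -1 ∨ ε p ω = 1 := by
    rw [ae_all_iff]
    intro p
    have hm1 : MeasurableSet {ω | ε p ω = -1} := hm p (measurableSet_singleton _)
    have hm2 : MeasurableSet {ω | ε p ω = 1} := hm p (measurableSet_singleton _)
    have hdis : Disjoint {ω | ε p ω = -1} {ω | ε p ω = 1} := by
      rw [Set.disjoint_left]
      intro ω ha hb
      have ha' : ε p ω = -1 := ha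
      have hb' : ε p ω = 1 := hb
      rw [ha'] at hb'
      norm_num at hb'
    have hu : μ ({ω | ε p ω = -1} ∪ {ω | ε p ω = 1}) = 1 := by
      rw [measure_union hdis hm2, h2 p, h1 p]
      exact ENNReal.add_halves 1
    have hu' := (mem_ae_iff_prob_eq_one (hm1.union hm2)).2 hu
    exact hu'
  -- the bad events
  let Q : ℕ → Finset ℕ → Prop := fun i T =>
    ∃ a jj N : ℕ, 2 ^ i ≤ a ∧ a < 2 * 2 ^ i ∧ jj < 2 ^ (a + ρ) ∧ 2 ^ a ≤ N ∧ N ≤ 2 ^ (a + 1) ∧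
      (1 + d) * tg N < ‖SN N T ((jj : ℝ) / (2 ^ (a + ρ) : ℕ))‖
  let s : ℕ → Set Ω := fun r =>
    {ω | Q (r + i0) ((PP (2 ^ (2 * 2 ^ (r + i0)))).filter (fun p => ext ε p ω = -1))}
  have hpow : ∀ n : ℕ, ((2 : ℝ) ^ n) ^ (-c) = ((2 : ℝ) ^ (-c)) ^ n := by
    intro n
    rw [← Real.rpow_natCast 2 n, ← Real.rpow_mul (by norm_num), mul_comm,
      Real.rpow_mul (by norm_num), Real.rpow_natCast]
  have hs : ∀ r, μ (s r) ≤ ENNReal.ofReal (((2 : ℝ) ^ (-c)) ^ (r + i0)) := by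
    intro r
    refine (meas_leP μ ε hm hi h2 (2 ^ (2 * 2 ^ (r + i0))) (Q (r + i0))).trans ?_
    apply ENNReal.ofReal_le_ofReal
    rw [← hpow]
    exact hu (r + i0) (by omega)
  have hsum : ∑' r, μ (s r) ≠ ⊤ := by
    have hc1 : (2 : ℝ) ^ (-c) < 1 := Real.rpow_lt_one_of_one_lt_of_neg (by norm_num) (by linarith)
    have hc0 : (0 : ℝ) ≤ (2 : ℝ) ^ (-c) := Real.rpow_nonneg (by norm_num) _
    have hsm : Summable (fun r : ℕ => ((2 : ℝ) ^ (-c)) ^ (r + i0)) :=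
      (summable_nat_add_iff i0).2 (summable_geometric_of_lt_one hc0 hc1)
    exact ne_top_of_le_ne_top hsm.tsum_ofReal_ne_top (ENNReal.tsum_le_tsum hs)
  have hbc := ae_eventually_notMem hsum
  filter_upwards [hsign, hbc] with ω hω' hev
  have hω : ∀ p, ext ε p ω = -1 ∨ ext ε p ω = 1 := by
    intro p
    unfold Pool.Agent.Helper5.RM.ext
    split_ifs with h
    · exact hω' _
    · right; rfl
  obtain ⟨r0, hr0⟩ := Filter.eventually_atTop.1 hev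
  refine ⟨2 ^ (2 ^ (r0 + i0)), fun N hN x => ?_⟩
  have hN1 : 1 ≤ N := le_trans Nat.one_le_two_pow hN
  obtain ⟨a, ha⟩ : ∃ a : ℕ, a = Nat.log 2 N := ⟨_, rfl⟩
  have hb1 : 2 ^ a ≤ N := by rw [ha]; exact Nat.pow_log_le_self 2 (by omega)
  have hb2 : N < 2 ^ (a + 1) := by rw [ha]; exact Nat.lt_pow_succ_log_self (by norm_num) N
  have ha0 : 2 ^ (r0 + i0) ≤ a := by
    rw [ha]
    exact (Nat.le_log_iff_pow_le (by norm_num) (by omega)).2 hN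
  have ha1 : a ≠ 0 := by
    have : 0 < 2 ^ (r0 + i0) := by positivity
    omega
  obtain ⟨i, hidef⟩ : ∃ i : ℕ, i = Nat.log 2 a := ⟨_, rfl⟩
  have hi1 : 2 ^ i ≤ a := by rw [hidef]; exact Nat.pow_log_le_self 2 ha1
  have hi2 : a < 2 ^ (i + 1) := by rw [hidef]; exact Nat.lt_pow_succ_log_self (by norm_num) a
  have hi3 : r0 + i0 ≤ i := by
    rw [hidef]
    exact (Nat.le_log_iff_pow_le (by norm_num) ha1).2 ha0
  have hnot := hr0 (i - i0) (by omega)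
  have hii : i - i0 + i0 = i := by omega
  have hnot' : ¬ Q i ((PP (2 ^ (2 * 2 ^ i))).filter (fun p => ext ε p ω = -1)) := by
    rw [← hii]
    exact hnot
  have hi2' : a < 2 * 2 ^ i := by rw [pow_succ] at hi2; omega
  have hNM : N ≤ 2 ^ (2 * 2 ^ i) :=
    hb2.le.trans (Nat.pow_le_pow_right (by norm_num) (by omega))
  have htg := tg_nonneg96 N
  have hgrid : ∀ jj : ℕ, jj < 2 ^ (a + ρ) → ‖∑ n ∈ Finset.Icc 1 N, (rs (ext ε) ω n : ℂ) *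
      e (n * ((jj : ℝ) / (2 ^ (a + ρ) : ℕ)))‖ ≤ (1 + d) * tg N := by
    intro jj hjj
    rw [AS_sum_eq (ext ε) ω hω (2 ^ (2 * 2 ^ i)) N hNM]
    by_contra hcon
    push Not at hcon
    exact hnot' ⟨a, jj, N, hi1, hi2', hjj, hb1, hb2.le, hcon⟩
  have hG : 8 * N ≤ 2 ^ (a + ρ) := by
    have h3 : 2 ^ (a + 4) ≤ 2 ^ (a + ρ) := Nat.pow_le_pow_right (by norm_num) (by omega)
    have h4 : 2 ^ (a + 4) = 8 * 2 ^ (a + 1) := by
      rw [pow_add, pow_add]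
      ring
    omega
  have hbern := bern N (2 ^ (a + ρ)) hN1 (fun n => (rs (ext ε) ω n : ℂ)) ((1 + d) * tg N) hG hgrid x
  refine hbern.trans ?_
  have h5 : 8 * (N : ℝ) / ((2 ^ (a + ρ) : ℕ) : ℝ) ≤ d := by
    refine le_trans ?_ hρ2
    push_cast
    have h6 : (N : ℝ) ≤ 2 ^ (a + 1) := by exact_mod_cast hb2.le
    rw [div_le_div_iff₀ (by positivity) (by positivity)]
    have h7 : (2 : ℝ) ^ (a + ρ) = 2 ^ a * 2 ^ ρ := pow_add _ _ _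
    have h8 : (2 : ℝ) ^ (a + 1) = 2 * 2 ^ a := by rw [pow_succ]; ring
    rw [h7]
    rw [h8] at h6
    have h9 : (0 : ℝ) < 2 ^ ρ := by positivity
    nlinarith
  calc (1 + 8 * (N : ℝ) / ((2 ^ (a + ρ) : ℕ) : ℝ)) * ((1 + d) * tg N) ≤ (1 + d) * ((1 + d) * tg N) := by
        apply mul_le_mul_of_nonneg_right _ (by positivity)
        linarith
    _ = (1 + d) * (1 + d) * tg N := by ring
    _ ≤ (1 + δ) * tg N := mul_le_mul_of_nonneg_right hd1 htg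

/-- E13 from E12 -/
theorem lower_as_of (hL : ∀ (δ : ℝ), 0 < δ → ∃ (c : ℝ) (a0 : ℕ), 0 < c ∧ ∀ a : ℕ, a0 ≤ a →
      pr (PP (2 ^ (a + 1))) (fun T => ∃ N : ℕ, 2 ^ a ≤ N ∧ N ≤ 2 ^ (a + 1) ∧ ∀ x : ℝ, ‖SN N T x‖ < (1 - δ) * tg N) ≤
        ((2 : ℝ) ^ a) ^ (-c))
    {Ω : Type*} [MeasurableSpace Ω] (μ : Measure Ω) [IsProbabilityMeasure μ]
    (ε : Nat.Primes → Ω → ℝ) (hm : ∀ p, Measurable (ε p)) (hi : iIndepFun ε μ)
    (h2 : ∀ p, μ {ω | ε p ω = -1} = 1 / 2) (h1 : ∀ p, μ {ω | ε p ω = 1} = 1 / 2) (δ : ℝ) (hδ : 0 < δ) :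
    ∀ᵐ ω ∂μ, ∃ N0 : ℕ, ∀ N : ℕ, N0 ≤ N → ∃ x : ℝ,
      (1 - δ) * tg N ≤ ‖∑ n ∈ Finset.Icc 1 N, (rs (ext ε) ω n : ℂ) * e (n * x)‖ := by
  classical
  obtain ⟨c, i0, hc, hu⟩ := hL δ hδ
  have hsign : ∀ᵐ ω ∂μ, ∀ p, ε p ω = -1 ∨ ε p ω = 1 := by
    rw [ae_all_iff]
    intro p
    have hm1 : MeasurableSet {ω | ε p ω = -1} := hm p (measurableSet_singleton _)
    have hm2 : MeasurableSet {ω | ε p ω = 1} := hm p (measurableSet_singleton _)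
    have hdis : Disjoint {ω | ε p ω = -1} {ω | ε p ω = 1} := by
      rw [Set.disjoint_left]
      intro ω ha hb
      have ha' : ε p ω = -1 := ha
      have hb' : ε p ω = 1 := hb
      rw [ha'] at hb'
      norm_num at hb'
    have hu : μ ({ω | ε p ω = -1} ∪ {ω | ε p ω = 1}) = 1 := by
      rw [measure_union hdis hm2, h2 p, h1 p]
      exact ENNReal.add_halves 1
    have hu' := (mem_ae_iff_prob_eq_one (hm1.union hm2)).2 hu
    exact hu'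
  let Q : ℕ → Finset ℕ → Prop := fun a T =>
    ∃ N : ℕ, 2 ^ a ≤ N ∧ N ≤ 2 ^ (a + 1) ∧ ∀ x : ℝ, ‖SN N T x‖ < (1 - δ) * tg N
  let s : ℕ → Set Ω := fun r => {ω | Q (r + i0) ((PP (2 ^ (r + i0 + 1))).filter (fun p => ext ε p ω = -1))}
  have hpow : ∀ n : ℕ, ((2 : ℝ) ^ n) ^ (-c) = ((2 : ℝ) ^ (-c)) ^ n := by
    intro n
    rw [← Real.rpow_natCast 2 n, ← Real.rpow_mul (by norm_num), mul_comm,
      Real.rpow_mul (by norm_num), Real.rpow_natCast]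
  have hs : ∀ r, μ (s r) ≤ ENNReal.ofReal (((2 : ℝ) ^ (-c)) ^ (r + i0)) := by
    intro r
    refine (meas_leP μ ε hm hi h2 (2 ^ (r + i0 + 1)) (Q (r + i0))).trans ?_
    apply ENNReal.ofReal_le_ofReal
    rw [← hpow]
    exact hu (r + i0) (by omega)
  have hsum : ∑' r, μ (s r) ≠ ⊤ := by
    have hc1 : (2 : ℝ) ^ (-c) < 1 := Real.rpow_lt_one_of_one_lt_of_neg (by norm_num) (by linarith)
    have hc0 : (0 : ℝ) ≤ (2 : ℝ) ^ (-c) := Real.rpow_nonneg (by norm_num) _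
    have hsm : Summable (fun r : ℕ => ((2 : ℝ) ^ (-c)) ^ (r + i0)) :=
      (summable_nat_add_iff i0).2 (summable_geometric_of_lt_one hc0 hc1)
    exact ne_top_of_le_ne_top hsm.tsum_ofReal_ne_top (ENNReal.tsum_le_tsum hs)
  have hbc := ae_eventually_notMem hsum
  filter_upwards [hsign, hbc] with ω hω' hev
  have hω : ∀ p, ext ε p ω = -1 ∨ ext ε p ω = 1 := by
    intro p
    unfold Pool.Agent.Helper5.RM.ext
    split_ifs with h
    · exact hω' _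
    · right; rfl
  obtain ⟨r0, hr0⟩ := Filter.eventually_atTop.1 hev
  refine ⟨2 ^ (r0 + i0), fun N hN => ?_⟩
  have hN1 : 1 ≤ N := le_trans Nat.one_le_two_pow hN
  obtain ⟨a, ha⟩ : ∃ a : ℕ, a = Nat.log 2 N := ⟨_, rfl⟩
  have hb1 : 2 ^ a ≤ N := by rw [ha]; exact Nat.pow_log_le_self 2 (by omega)
  have hb2 : N < 2 ^ (a + 1) := by rw [ha]; exact Nat.lt_pow_succ_log_self (by norm_num) N
  have ha0 : r0 + i0 ≤ a := by
    rw [ha]
    exact (Nat.le_log_iff_pow_le (by norm_num) (by omega)).2 hN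
  have hnot := hr0 (a - i0) (by omega)
  have hii : a - i0 + i0 = a := by omega
  have hnot' : ¬ Q a ((PP (2 ^ (a + 1))).filter (fun p => ext ε p ω = -1)) := by
    rw [← hii]
    exact hnot
  by_contra hcon
  push Not at hcon
  apply hnot'
  refine ⟨N, hb1, hb2.le, fun x => ?_⟩
  have h3 := hcon x
  have h4 := AS_sum_eq (ext ε) ω hω (2 ^ (a + 1)) N hb2.le (x := x)
  rw [h4] at h3
  exact h3

end Pool.Agent.Helper51.EA
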