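import Pool.Agent.Helper96.EA.E23

/-!
# Project EA (MP_b6b996_nt), block D1w: orthogonality of the cofactor sums in a direction
-/

set_option autoImplicit false

namespace Pool.Agent.Helper51.EA

open Finset Pool.Agent.Helper5.RM Pool.Agent.Helper5.RS

open Pool.Agent.Helper11.RL (e_ne_one e_pow)

lemma sum_e_zero96 {J : ℕ} {h : ℤ} (hJ : 0 < J) (hh : ¬ (J : ℤ) ∣ h) :
    ∑ j ∈ range J, e (h * ((j : ℝ) / J)) = 0 := by
  have hJr : (J : ℝ) ≠ 0 := by positivity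
  have h1 : ∀ j ∈ range J, e (h * ((j : ℝ) / J)) = e ((h : ℝ) / J) ^ j := by
    intro j _
    rw [← e_pow]
    congr 1
    ring
  rw [Finset.sum_congr rfl h1]
  have hne : e ((h : ℝ) / J) ≠ 1 := by
    apply e_ne_one
    intro n hn
    apply hh
    refine ⟨n, ?_⟩
    have : (h : ℝ) = J * n := by
      field_simp at hn
      linarith
    exact_mod_cast this
  have h2 := geom_sum_eq hne J
  rw [h2, ← e_pow]
  have h3 : (J : ℝ) * ((h : ℝ) / J) = (h : ℝ) := by field_simp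
  rw [h3, e_int]
  simp

lemma XG_mulp96 (N J : ℕ) (A A' T : Finset ℕ) (p p' : ℕ) :
    ∑ j ∈ range J, XG N A ((j : ℝ) / J) p T * XG N A' ((j : ℝ) / J) p' T =
      ∑ m ∈ MG N A p, ∑ m' ∈ MG N A' p', ((rf T m * rf T m' : ℝ) : ℂ) *
        ∑ j ∈ range J, e ((((p * m : ℕ) : ℤ) + ((p' * m' : ℕ) : ℤ) : ℤ) * ((j : ℝ) / J)) := by
  have h1 : ∀ j ∈ range J, XG N A ((j : ℝ) / J) p T * XG N A' ((j : ℝ) / J) p' T =
      ∑ m ∈ MG N A p, ∑ m' ∈ MG N A' p', ((rf T m * rf T m' : ℝ) : ℂ) *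
        e ((((p * m : ℕ) : ℤ) + ((p' * m' : ℕ) : ℤ) : ℤ) * ((j : ℝ) / J)) := by
    intro j _
    unfold XG
    rw [Finset.sum_mul_sum]
    refine Finset.sum_congr rfl fun m _ => Finset.sum_congr rfl fun m' _ => ?_
    have h2 : ((((p * m : ℕ) : ℤ) + ((p' * m' : ℕ) : ℤ) : ℤ) : ℝ) * ((j : ℝ) / J) =
        (p : ℝ) * m * ((j : ℝ) / J) + (p' : ℝ) * m' * ((j : ℝ) / J) := by
      push_cast
      ring
    rw [h2, e_add]
    push_cast
    ring
  rw [Finset.sum_congr rfl h1, Finset.sum_comm]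
  refine Finset.sum_congr rfl fun m _ => ?_
  rw [Finset.sum_comm]
  refine Finset.sum_congr rfl fun m' _ => ?_
  rw [← Finset.mul_sum]

lemma XG_mulm96 (N J : ℕ) (A A' T : Finset ℕ) (p p' : ℕ) :
    ∑ j ∈ range J, XG N A ((j : ℝ) / J) p T * (starRingEnd ℂ) (XG N A' ((j : ℝ) / J) p' T) =
      ∑ m ∈ MG N A p, ∑ m' ∈ MG N A' p', ((rf T m * rf T m' : ℝ) : ℂ) *
        ∑ j ∈ range J, e ((((p * m : ℕ) : ℤ) - ((p' * m' : ℕ) : ℤ) : ℤ) * ((j : ℝ) / J)) := by
  have h1 : ∀ j ∈ range J, XG N A ((j : ℝ) / J) p T * (starRingEnd ℂ) (XG N A' ((j : ℝ) / J) p' T) =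
      ∑ m ∈ MG N A p, ∑ m' ∈ MG N A' p', ((rf T m * rf T m' : ℝ) : ℂ) *
        e ((((p * m : ℕ) : ℤ) - ((p' * m' : ℕ) : ℤ) : ℤ) * ((j : ℝ) / J)) := by
    intro j _
    unfold XG
    rw [map_sum, Finset.sum_mul_sum]
    refine Finset.sum_congr rfl fun m _ => Finset.sum_congr rfl fun m' _ => ?_
    have h2 : ((((p * m : ℕ) : ℤ) - ((p' * m' : ℕ) : ℤ) : ℤ) : ℝ) * ((j : ℝ) / J) =
        (p : ℝ) * m * ((j : ℝ) / J) + -((p' : ℝ) * m' * ((j : ℝ) / J)) := by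
      push_cast
      ring
    rw [h2, e_add, e_neg, map_mul, Complex.conj_ofReal]
    push_cast
    ring
  rw [Finset.sum_congr rfl h1, Finset.sum_comm]
  refine Finset.sum_congr rfl fun m _ => ?_
  rw [Finset.sum_comm]
  refine Finset.sum_congr rfl fun m' _ => ?_
  rw [← Finset.mul_sum]

lemma re_mul_re96 (ω x y : ℂ) : (ω * x).re * (ω * y).re =
    ((ω ^ 2 * (x * y)).re + (((Complex.normSq ω : ℝ) : ℂ) * (x * (starRingEnd ℂ) y)).re) / 2 := by
  rw [Complex.re_ofReal_mul, Complex.normSq_apply]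
  simp only [Complex.mul_re, Complex.mul_im, Complex.conj_re, Complex.conj_im, sq]
  ring

lemma sum_plus_zero96 {N J : ℕ} (hJ : 2 * N < J) (A A' T : Finset ℕ) {p p' : ℕ} (hp : 1 ≤ p) (hp' : 1 ≤ p') :
    ∑ j ∈ range J, XG N A ((j : ℝ) / J) p T * XG N A' ((j : ℝ) / J) p' T = 0 := by
  rw [XG_mulp96]
  refine Finset.sum_eq_zero fun m hm => Finset.sum_eq_zero fun m' hm' => ?_
  obtain ⟨hm1, hm2⟩ := MG_le96 hm
  obtain ⟨hm3, hm4⟩ := MG_le96 hm'
  have hpm : 1 ≤ p * m := Nat.mul_pos hp hm1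
  have hpm' : 1 ≤ p' * m' := Nat.mul_pos hp' hm3
  have hJ0 : 0 < J := by omega
  have hz2 : ¬ (J : ℤ) ∣ (((p * m : ℕ) : ℤ) + ((p' * m' : ℕ) : ℤ)) := by
    intro h
    have h3 : (((p * m : ℕ) : ℤ) + ((p' * m' : ℕ) : ℤ)) = 0 := by
      apply Int.eq_zero_of_abs_lt_dvd h
      rw [abs_lt]
      constructor <;> omega
    omega
  rw [sum_e_zero96 hJ0 hz2, mul_zero]

/-- D1w -/
theorem XG_orthW (N y J : ℕ) (hJ : 2 * N < J) (ω : ℂ) (T : Finset ℕ) {p p' : ℕ} (hp : p.Prime) (hp' : p'.Prime)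
    (h1 : y < p) (_h2 : y < p') (hne : p ≠ p') :
    ∑ j ∈ range J, (ω * XG N (Sy N y) ((j : ℝ) / J) p T).re * (ω * XG N (Sy N y) ((j : ℝ) / J) p' T).re = 0 := by
  have hm0 : ∑ j ∈ range J, XG N (Sy N y) ((j : ℝ) / J) p T * (starRingEnd ℂ) (XG N (Sy N y) ((j : ℝ) / J) p' T) = 0 := by
    rw [XG_mulm96]
    refine Finset.sum_eq_zero fun m hm => Finset.sum_eq_zero fun m' hm' => ?_
    obtain ⟨hm1, hm2⟩ := MG_le96 hm
    obtain ⟨hm3, hm4⟩ := MG_le96 hm'
    have hpm : 1 ≤ p * m := Nat.mul_pos hp.pos hm1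
    have hpm' : 1 ≤ p' * m' := Nat.mul_pos hp'.pos hm3
    have hJ0 : 0 < J := by omega
    have hne2 : p * m ≠ p' * m' := by
      intro h
      have hd : p ∣ p' * m' := ⟨m, h.symm⟩
      rcases (Nat.Prime.dvd_mul hp).1 hd with hd | hd
      · exact hne ((Nat.prime_dvd_prime_iff_eq hp hp').1 hd)
      · unfold MG Sy at hm'
        rw [Finset.mem_filter, Finset.mem_filter] at hm'
        have := hm'.2.1.2 p (Nat.mem_primeFactors.2 ⟨hp, hd, by omega⟩)
        omega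
    have hz1 : ¬ (J : ℤ) ∣ (((p * m : ℕ) : ℤ) - ((p' * m' : ℕ) : ℤ)) := by
      intro h
      have h3 : (((p * m : ℕ) : ℤ) - ((p' * m' : ℕ) : ℤ)) = 0 := by
        apply Int.eq_zero_of_abs_lt_dvd h
        rw [abs_lt]
        constructor <;> omega
      apply hne2
      omega
    rw [sum_e_zero96 hJ0 hz1, mul_zero]
  rw [Finset.sum_congr rfl fun j _ => re_mul_re96 ω _ _, ← Finset.sum_div, Finset.sum_add_distrib, ← Complex.re_sum,
    ← Complex.re_sum, ← Finset.mul_sum, ← Finset.mul_sum, hm0, sum_plus_zero96 hJ _ _ _ hp.pos hp'.pos]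
  simp

/-- D1w, the norms -/
theorem XG_normW (N J : ℕ) (hJ : 2 * N < J) (ω : ℂ) (hω : ‖ω‖ = 1) (A T : Finset ℕ) {p : ℕ} (hp : 1 ≤ p) :
    ∑ j ∈ range J, (ω * XG N A ((j : ℝ) / J) p T).re ^ 2 ≤ J * ((N / p : ℕ) : ℝ) := by
  have hJ0 : 0 < J := by omega
  have hm0 : (∑ j ∈ range J, XG N A ((j : ℝ) / J) p T * (starRingEnd ℂ) (XG N A ((j : ℝ) / J) p T)).re ≤
      J * ((N / p : ℕ) : ℝ) := by
    rw [XG_mulm96, Complex.re_sum]
    have h1 : ∀ m ∈ MG N A p, (∑ m' ∈ MG N A p, ((rf T m * rf T m' : ℝ) : ℂ) *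
        ∑ j ∈ range J, e ((((p * m : ℕ) : ℤ) - ((p * m' : ℕ) : ℤ) : ℤ) * ((j : ℝ) / J))).re ≤ J := by
      intro m hm
      obtain ⟨hm1, hm2⟩ := MG_le96 hm
      have hpm : 1 ≤ p * m := Nat.mul_pos hp hm1
      rw [Finset.sum_eq_single m]
      · rw [Complex.re_ofReal_mul, sub_self]
        simp only [Int.cast_zero, zero_mul, e_zero, Finset.sum_const, Finset.card_range, nsmul_eq_mul, mul_one,
          Complex.natCast_re]
        have h2 : rf T m * rf T m ≤ 1 := by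
          have := abs_rf_le T m
          rw [← abs_mul_abs_self]
          nlinarith [abs_nonneg (rf T m)]
        have h3 : (0 : ℝ) ≤ J := by positivity
        nlinarith [mul_self_nonneg (rf T m)]
      · intro m' hm' hne
        obtain ⟨hm3, hm4⟩ := MG_le96 hm'
        have hpm' : 1 ≤ p * m' := Nat.mul_pos hp hm3
        have hne2 : p * m ≠ p * m' := fun h => hne (Nat.eq_of_mul_eq_mul_left hp h).symm
        have hz1 : ¬ (J : ℤ) ∣ (((p * m : ℕ) : ℤ) - ((p * m' : ℕ) : ℤ)) := by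
          intro h
          have h3 : (((p * m : ℕ) : ℤ) - ((p * m' : ℕ) : ℤ)) = 0 := by
            apply Int.eq_zero_of_abs_lt_dvd h
            rw [abs_lt]
            constructor <;> omega
          apply hne2
          omega
        rw [sum_e_zero96 hJ0 hz1, mul_zero]
      · intro h
        exact absurd hm h
    refine (Finset.sum_le_sum h1).trans ?_
    rw [Finset.sum_const, nsmul_eq_mul, mul_comm]
    apply mul_le_mul_of_nonneg_left _ (by positivity)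
    have h2 : (MG N A p).card ≤ N / p := by
      unfold MG
      refine (Finset.card_filter_le _ _).trans ?_
      rw [Nat.card_Icc, Nat.add_sub_cancel]
    exact_mod_cast h2
  have hsq : Complex.normSq ω = 1 := by
    rw [Complex.normSq_eq_norm_sq, hω]
    norm_num
  have e1 : ∑ j ∈ range J, (ω * XG N A ((j : ℝ) / J) p T).re ^ 2 =
      ((∑ j ∈ range J, XG N A ((j : ℝ) / J) p T * (starRingEnd ℂ) (XG N A ((j : ℝ) / J) p T)).re) / 2 := by
    rw [Finset.sum_congr rfl fun j _ => (sq _).trans (re_mul_re96 ω _ _), ← Finset.sum_div, Finset.sum_add_distrib,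
      ← Complex.re_sum, ← Complex.re_sum, ← Finset.mul_sum, ← Finset.mul_sum, sum_plus_zero96 hJ _ _ _ hp hp, hsq]
    simp
  rw [e1]
  have h0 : (0 : ℝ) ≤ J * ((N / p : ℕ) : ℝ) := by positivity
  linarith

end Pool.Agent.Helper51.EA
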