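import Pool.Agent.Helper51.EA.Defs2
import Pool.Agent.Helper96.EA.D3

/-!
# Project EA (MP_b6b996_nt), block T5: the upper bound of the measure of the thick points, almost surely
-/

set_option autoImplicit false

namespace Pool.Agent.Helper51.EA

open Finset Pool.Agent.Helper5.RM Pool.Agent.Helper5.RS MeasureTheory ProbabilityTheory

lemma tg_mono96 {m n : ℕ} (h : m ≤ n) : tg m ≤ tg n := by
  unfold tg
  apply Real.sqrt_le_sqrt
  apply mul_le_mul_of_nonneg_left _ (by positivity)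
  rcases Nat.eq_zero_or_pos m with rfl | hm
  · rw [Nat.cast_zero, zero_mul]
    exact mul_nonneg (by positivity) (Real.log_natCast_nonneg n)
  · apply mul_le_mul (by exact_mod_cast h) _ (Real.log_natCast_nonneg m) (by positivity)
    exact Real.log_le_log (by exact_mod_cast hm) (by exact_mod_cast h)

lemma tg_pos96 {n : ℕ} (h : 2 ≤ n) : 0 < tg n := by
  unfold tg
  apply Real.sqrt_pos.2
  have h2 : 0 < Real.log n := Real.log_pos (by exact_mod_cast h)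
  have h1 : (0 : ℝ) < n := by
    have : 0 < n := by omega
    exact_mod_cast this
  have h3 := Real.pi_pos
  positivity

/-- `tg N → ∞` -/
lemma tg_large96 (B : ℝ) : ∃ N0 : ℕ, ∀ N : ℕ, N0 ≤ N → B ≤ tg N := by
  have h1 : Filter.Tendsto (fun N : ℕ => (N : ℝ)) Filter.atTop Filter.atTop := tendsto_natCast_atTop_atTop
  have h2 : ∀ᶠ N : ℕ in Filter.atTop, (2 * B ^ 2 : ℝ) ≤ N := h1.eventually_ge_atTop _
  obtain ⟨N0, hN0⟩ := Filter.eventually_atTop.1 h2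
  refine ⟨max N0 3, fun N hN => ?_⟩
  have h3 := hN0 N (le_trans (le_max_left _ _) hN)
  have h4 : (3 : ℝ) ≤ N := by exact_mod_cast le_trans (le_max_right _ _) hN
  have h5 : 1 ≤ Real.log N := by
    rw [Real.le_log_iff_exp_le (by linarith)]
    have := Real.exp_one_lt_d9
    linarith
  have h6 : (1 : ℝ) / 2 ≤ 6 / Real.pi ^ 2 := by
    rw [div_le_div_iff₀ (by norm_num) (by positivity)]
    have h7 := Real.pi_lt_d2
    have h8 := Real.pi_pos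
    nlinarith
  unfold tg
  apply Real.le_sqrt_of_sq_le
  have h9 : (N : ℝ) ≤ N * Real.log N := by nlinarith
  calc B ^ 2 ≤ 1 / 2 * N := by linarith
    _ ≤ 6 / Real.pi ^ 2 * (N * Real.log N) := mul_le_mul h6 h9 (by linarith) (by positivity)

/-- covering by the cells of the grid -/
lemma vol_le_cnt96 (G : ℕ) (hG : 0 < G) (P : ℝ → Prop) (S : Set ℝ)
    (hS : ∀ x ∈ S, 0 ≤ x ∧ x < 1 ∧ P ((⌊(G : ℝ) * x⌋₊ : ℝ) / G)) :
    volume S ≤ ENNReal.ofReal ((cnt G P : ℝ) / G) := by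
  classical
  have hG0 : (0 : ℝ) < G := by exact_mod_cast hG
  have h1 : S ⊆ ⋃ j ∈ (range G).filter (fun j : ℕ => P ((j : ℝ) / G)), Set.Ico ((j : ℝ) / G) (((j : ℝ) + 1) / G) := by
    intro x hx
    obtain ⟨h0, h1, h2⟩ := hS x hx
    have h3 : 0 ≤ (G : ℝ) * x := by positivity
    have h4 := Nat.floor_le h3
    have h5 := Nat.lt_floor_add_one ((G : ℝ) * x)
    simp only [Set.mem_iUnion]
    refine ⟨⌊(G : ℝ) * x⌋₊, ?_, ?_⟩
    · rw [mem_filter, mem_range]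
      refine ⟨?_, h2⟩
      rw [Nat.floor_lt h3]
      nlinarith
    · rw [Set.mem_Ico, div_le_iff₀ hG0, lt_div_iff₀ hG0]
      constructor <;> linarith
  refine (measure_mono h1).trans ((measure_biUnion_finset_le _ _).trans ?_)
  have h2 : ∀ j : ℕ, volume (Set.Ico ((j : ℝ) / G) (((j : ℝ) + 1) / G)) = ENNReal.ofReal (1 / G) := by
    intro j
    rw [Real.volume_Ico]
    congr 1
    ring
  rw [Finset.sum_congr rfl fun j _ => h2 j, Finset.sum_const, nsmul_eq_mul]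
  have h3 : (((range G).filter (fun j : ℕ => P ((j : ℝ) / G))).card : ENNReal) = ENNReal.ofReal (cnt G P : ℝ) := by
    rw [ENNReal.ofReal_natCast]
    unfold cnt
    congr!
  rw [h3, ← ENNReal.ofReal_mul (by positivity)]
  apply ENNReal.ofReal_le_ofReal
  apply le_of_eq
  ring

/-- T5 from D3, T3 and T4 -/
theorem thick_upper_of
    (hU : ∀ (δ r : ℝ), 0 < δ → 0 < r → r ≤ 1 → ∀ ρ : ℕ, ∃ (c : ℝ) (i0 : ℕ), 0 < c ∧ ∀ i : ℕ, i0 ≤ i →
      pr (PP (2 ^ (2 * 2 ^ i))) (fun T => ∃ a : ℕ, 2 ^ i ≤ a ∧ a < 2 * 2 ^ i ∧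
        ((2 : ℝ) ^ a) ^ (1 - r ^ 2 + δ) < (cnt (2 ^ (a + ρ)) (fun x => ∃ N : ℕ, 2 ^ a ≤ N ∧ N ≤ 2 ^ (a + 1) ∧
          r * (1 + δ) * tg N < ‖SN N T x‖) : ℝ)) ≤ ((2 : ℝ) ^ i) ^ (-c))
    (hslow : ∀ (N : ℕ) (c : ℕ → ℂ) (x y M : ℝ), (∀ n ≤ N, ‖∑ m ∈ Icc 1 n, c m * e (m * x)‖ ≤ M) →
      ‖∑ n ∈ Icc 1 N, c n * e (n * x) - ∑ n ∈ Icc 1 N, c n * e (n * y)‖ ≤ 4 * Real.pi * (N + 1) * |x - y| * M)
    {Ω : Type*} [MeasurableSpace Ω] (μ : Measure Ω) [IsProbabilityMeasure μ]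
    (ε : Nat.Primes → Ω → ℝ) (hm : ∀ p, Measurable (ε p)) (hi : iIndepFun ε μ)
    (h2 : ∀ p, μ {ω | ε p ω = -1} = 1 / 2) (h1 : ∀ p, μ {ω | ε p ω = 1} = 1 / 2)
    (hup : ∀ δ : ℝ, 0 < δ → ∀ᵐ ω ∂μ, ∃ N0 : ℕ, ∀ N : ℕ, N0 ≤ N → ∀ x : ℝ,
      ‖∑ n ∈ Finset.Icc 1 N, (rs (ext ε) ω n : ℂ) * e (n * x)‖ ≤ (1 + δ) * tg N)
    (δ r : ℝ) (hδ : 0 < δ) (hr0 : 0 < r) (hr1 : r ≤ 1) :
    ∀ᵐ ω ∂μ, ∃ N0 : ℕ, ∀ N : ℕ, N0 ≤ N → (volume {x : ℝ | x ∈ Set.Ico (0 : ℝ) 1 ∧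
      r * (1 + δ) * tg N ≤ ‖∑ n ∈ Finset.Icc 1 N, (rs (ext ε) ω n : ℂ) * e (n * x)‖}).toReal ≤ (N : ℝ) ^ (-(r ^ 2) + δ) := by
  classical
  -- parameters
  obtain ⟨d, hd⟩ : ∃ d : ℝ, d = δ / 3 := ⟨_, rfl⟩
  have hd0 : 0 < d := by rw [hd]; positivity
  obtain ⟨ρ, hρ1, hρ2⟩ : ∃ ρ : ℕ, 4 ≤ ρ ∧ 144 / (2 : ℝ) ^ ρ ≤ r * d := by
    have ht : Filter.Tendsto (fun ρ : ℕ => 144 / (2 : ℝ) ^ ρ) Filter.atTop (nhds 0) :=
      tendsto_const_nhds.div_atTop (tendsto_pow_atTop_atTop_of_one_lt (by norm_num))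
    obtain ⟨ρ, h⟩ := ((ht.eventually_le_const (mul_pos hr0 hd0)).and (Filter.eventually_ge_atTop 4)).exists
    exact ⟨ρ, h.2, h.1⟩
  obtain ⟨c, i0, hc, hu⟩ := hU d r hd0 hr0 hr1 ρ
  -- all values are signs
  have hsign : ∀ᵐ ω ∂μ, ∀ p, ε p ω = -1 ∨ ε p ω = 1 := by
    rw [ae_all_iff]
    intro p
    have hm1 : MeasurableSet {ω | ε p ω = -1} := hm p (measurableSet_singleton _)
    have hm2 : MeasurableSet {ω | ε p ω = 1} := hm p (measurableSet_singleton _)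
    have hdis : Disjoint {ω | ε p ω = -1} {ω | ε p ω = 1} := by
      rw [Set.disjoint_left]
      intro ω ha hb
      have ha' : ε p ω = -1 := ha
      have hb' : ε p ω = 1 := hb
      rw [ha'] at hb'
      norm_num at hb'
    have hu : μ ({ω | ε p ω = -1} ∪ {ω | ε p ω = 1}) = 1 := by
      rw [measure_union hdis hm2, h2 p, h1 p]
      exact ENNReal.add_halves 1
    have hu' := (mem_ae_iff_prob_eq_one (hm1.union hm2)).2 hu
    exact hu'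
  -- the bad events
  let Q : ℕ → Finset ℕ → Prop := fun i T =>
    ∃ a : ℕ, 2 ^ i ≤ a ∧ a < 2 * 2 ^ i ∧
      ((2 : ℝ) ^ a) ^ (1 - r ^ 2 + d) < (cnt (2 ^ (a + ρ)) (fun x => ∃ N : ℕ, 2 ^ a ≤ N ∧ N ≤ 2 ^ (a + 1) ∧
        r * (1 + d) * tg N < ‖SN N T x‖) : ℝ)
  let s : ℕ → Set Ω := fun r =>
    {ω | Q (r + i0) ((PP (2 ^ (2 * 2 ^ (r + i0)))).filter (fun p => ext ε p ω = -1))}
  have hpow : ∀ n : ℕ, ((2 : ℝ) ^ n) ^ (-c) = ((2 : ℝ) ^ (-c)) ^ n := by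
    intro n
    rw [← Real.rpow_natCast 2 n, ← Real.rpow_mul (by norm_num), mul_comm,
      Real.rpow_mul (by norm_num), Real.rpow_natCast]
  have hs : ∀ r, μ (s r) ≤ ENNReal.ofReal (((2 : ℝ) ^ (-c)) ^ (r + i0)) := by
    intro r
    refine (meas_leP μ ε hm hi h2 (2 ^ (2 * 2 ^ (r + i0))) (Q (r + i0))).trans ?_
    apply ENNReal.ofReal_le_ofReal
    rw [← hpow]
    exact hu (r + i0) (by omega)
  have hsum : ∑' r, μ (s r) ≠ ⊤ := by
    have hc1 : (2 : ℝ) ^ (-c) < 1 := Real.rpow_lt_one_of_one_lt_of_neg (by norm_num) (by linarith)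
    have hc0 : (0 : ℝ) ≤ (2 : ℝ) ^ (-c) := Real.rpow_nonneg (by norm_num) _
    have hsm : Summable (fun r : ℕ => ((2 : ℝ) ^ (-c)) ^ (r + i0)) :=
      (summable_nat_add_iff i0).2 (summable_geometric_of_lt_one hc0 hc1)
    exact ne_top_of_le_ne_top hsm.tsum_ofReal_ne_top (ENNReal.tsum_le_tsum hs)
  have hbc := ae_eventually_notMem hsum
  filter_upwards [hsign, hbc, hup 1 one_pos] with ω hω' hev hupω
  have hω : ∀ p, ext ε p ω = -1 ∨ ext ε p ω = 1 := by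
    intro p
    unfold Pool.Agent.Helper5.RM.ext
    split_ifs with h
    · exact hω' _
    · right; rfl
  obtain ⟨r0, hr0'⟩ := Filter.eventually_atTop.1 hev
  obtain ⟨N1, hN1⟩ := hupω
  obtain ⟨N2, hN2⟩ := tg_large96 N1
  -- the partial sums
  have hcn : ∀ n, ‖(rs (ext ε) ω n : ℂ)‖ ≤ 1 := by
    intro n
    rw [Complex.norm_real, AS_rs_eq (ext ε) ω hω n n le_rfl]
    exact abs_rf_le _ _
  have hpart : ∀ N : ℕ, N2 ≤ N → ∀ x : ℝ, ∀ n ≤ N,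
      ‖∑ m ∈ Icc 1 n, (rs (ext ε) ω m : ℂ) * e (m * x)‖ ≤ 2 * tg N := by
    intro N hN x n hn
    by_cases hn1 : N1 ≤ n
    · refine (hN1 n hn1 x).trans ?_
      have := tg_mono96 hn
      linarith
    · have h3 : ‖∑ m ∈ Icc 1 n, (rs (ext ε) ω m : ℂ) * e (m * x)‖ ≤ n := by
        refine (norm_sum_le _ _).trans ?_
        calc ∑ m ∈ Icc 1 n, ‖(rs (ext ε) ω m : ℂ) * e (m * x)‖ ≤ ∑ m ∈ Icc 1 n, (1 : ℝ) := by
              refine Finset.sum_le_sum fun m _ => ?_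
              rw [norm_mul, norm_e, mul_one]
              exact hcn m
          _ = n := by simp
      have h4 := hN2 N hN
      have h5 : (n : ℝ) ≤ N1 := by exact_mod_cast (not_le.1 hn1).le
      have h6 : (0 : ℝ) ≤ N1 := by positivity
      linarith
  refine ⟨max (2 ^ (2 ^ (r0 + i0))) (max N2 2), fun N hN => ?_⟩
  have hNa : 2 ^ (2 ^ (r0 + i0)) ≤ N := le_trans (le_max_left _ _) hN
  have hNb : N2 ≤ N := le_trans (le_trans (le_max_left _ _) (le_max_right _ _)) hN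
  have hNc : 2 ≤ N := le_trans (le_trans (le_max_right _ _) (le_max_right _ _)) hN
  have hN1' : 1 ≤ N := by omega
  obtain ⟨a, ha⟩ : ∃ a : ℕ, a = Nat.log 2 N := ⟨_, rfl⟩
  have hb1 : 2 ^ a ≤ N := by rw [ha]; exact Nat.pow_log_le_self 2 (by omega)
  have hb2 : N < 2 ^ (a + 1) := by rw [ha]; exact Nat.lt_pow_succ_log_self (by norm_num) N
  have ha0 : 2 ^ (r0 + i0) ≤ a := by
    rw [ha]
    exact (Nat.le_log_iff_pow_le (by norm_num) (by omega)).2 hNa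
  have ha1 : a ≠ 0 := by
    have : 0 < 2 ^ (r0 + i0) := by positivity
    omega
  obtain ⟨i, hidef⟩ : ∃ i : ℕ, i = Nat.log 2 a := ⟨_, rfl⟩
  have hi1 : 2 ^ i ≤ a := by rw [hidef]; exact Nat.pow_log_le_self 2 ha1
  have hi2 : a < 2 ^ (i + 1) := by rw [hidef]; exact Nat.lt_pow_succ_log_self (by norm_num) a
  have hi3 : r0 + i0 ≤ i := by
    rw [hidef]
    exact (Nat.le_log_iff_pow_le (by norm_num) ha1).2 ha0
  have hnot := hr0' (i - i0) (by omega)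
  have hii : i - i0 + i0 = i := by omega
  have hnot' : ¬ Q i ((PP (2 ^ (2 * 2 ^ i))).filter (fun p => ext ε p ω = -1)) := by
    rw [← hii]
    exact hnot
  have hi2' : a < 2 * 2 ^ i := by rw [pow_succ] at hi2; omega
  have hNM : N ≤ 2 ^ (2 * 2 ^ i) :=
    hb2.le.trans (Nat.pow_le_pow_right (by norm_num) (by omega))
  have htg := tg_pos96 hNc
  obtain ⟨T, hT⟩ : ∃ T : Finset ℕ, T = (PP (2 ^ (2 * 2 ^ i))).filter (fun p => ext ε p ω = -1) := ⟨_, rfl⟩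
  have hG0 : 0 < 2 ^ (a + ρ) := by positivity
  have hGr : ((2 ^ (a + ρ) : ℕ) : ℝ) = 2 ^ a * 2 ^ ρ := by
    push_cast
    exact pow_add _ _ _
  have h2a : (0 : ℝ) < 2 ^ a := by positivity
  have h2ρ : (0 : ℝ) < 2 ^ ρ := by positivity
  have hNr : (N : ℝ) ≤ 2 * 2 ^ a := by
    have h3 : (N : ℝ) ≤ 2 ^ (a + 1) := by exact_mod_cast hb2.le
    rw [pow_succ] at h3
    linarith
  have hN1r : (1 : ℝ) ≤ 2 ^ a := one_le_pow₀ (by norm_num)
  have hN0r : (0 : ℝ) < N := by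
    have : 0 < N := by omega
    exact_mod_cast this
  -- the count
  have hcnt : (cnt (2 ^ (a + ρ)) (fun x => ∃ N : ℕ, 2 ^ a ≤ N ∧ N ≤ 2 ^ (a + 1) ∧
      r * (1 + d) * tg N < ‖SN N T x‖) : ℝ) ≤ ((2 : ℝ) ^ a) ^ (1 - r ^ 2 + d) := by
    by_contra hcon
    push Not at hcon
    apply hnot'
    rw [← hT]
    exact ⟨a, hi1, hi2', hcon⟩
  -- the covering
  have hvol : volume {x : ℝ | x ∈ Set.Ico (0 : ℝ) 1 ∧
      r * (1 + δ) * tg N ≤ ‖∑ n ∈ Finset.Icc 1 N, (rs (ext ε) ω n : ℂ) * e (n * x)‖} ≤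
      ENNReal.ofReal ((cnt (2 ^ (a + ρ)) (fun x => ∃ N : ℕ, 2 ^ a ≤ N ∧ N ≤ 2 ^ (a + 1) ∧
      r * (1 + d) * tg N < ‖SN N T x‖) : ℝ) / ((2 ^ (a + ρ) : ℕ) : ℝ)) := by
    apply vol_le_cnt96 _ hG0
    rintro x ⟨⟨hx0, hx1⟩, hx2⟩
    refine ⟨hx0, hx1, N, hb1, hb2.le, ?_⟩
    obtain ⟨G, hG⟩ : ∃ G : ℝ, G = ((2 ^ (a + ρ) : ℕ) : ℝ) := ⟨_, rfl⟩
    have hGp : 0 < G := by
      rw [hG, hGr]
      positivity
    obtain ⟨y, hy⟩ : ∃ y : ℝ, y = (⌊((2 ^ (a + ρ) : ℕ) : ℝ) * x⌋₊ : ℝ) / ((2 ^ (a + ρ) : ℕ) : ℝ) := ⟨_, rfl⟩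
    rw [← hy]
    have hxy : |x - y| ≤ 1 / G := by
      have h3 : 0 ≤ G * x := by positivity
      have h4 := Nat.floor_le h3
      have h5 := Nat.lt_floor_add_one (G * x)
      have h6 : x - y = (G * x - ⌊G * x⌋₊) / G := by
        rw [hy, ← hG]
        field_simp
      rw [h6, abs_of_nonneg (div_nonneg (by linarith) hGp.le)]
      apply div_le_div_of_nonneg_right _ hGp.le
      linarith
    have hsl := hslow N (fun n => (rs (ext ε) ω n : ℂ)) x y (2 * tg N) (hpart N hNb x)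
    have h3 : 4 * Real.pi * (N + 1) * |x - y| * (2 * tg N) ≤ r * d * tg N := by
      have hpi := Real.pi_lt_four
      have hpi0 := Real.pi_pos
      calc 4 * Real.pi * (N + 1) * |x - y| * (2 * tg N) ≤ 4 * 4 * (3 * 2 ^ a) * (1 / G) * (2 * tg N) := by
            apply mul_le_mul_of_nonneg_right _ (by linarith)
            apply mul_le_mul _ hxy (abs_nonneg _) (by positivity)
            apply mul_le_mul _ _ (by positivity) (by positivity)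
            · linarith
            · linarith
        _ = 96 / 2 ^ ρ * tg N := by
            rw [hG, hGr]
            field_simp
            norm_num
        _ ≤ 144 / 2 ^ ρ * tg N := by
            apply mul_le_mul_of_nonneg_right _ htg.le
            apply div_le_div_of_nonneg_right (by norm_num) h2ρ.le
        _ ≤ r * d * tg N := mul_le_mul_of_nonneg_right hρ2 htg.le
    have h4 : ‖∑ n ∈ Finset.Icc 1 N, (rs (ext ε) ω n : ℂ) * e (n * x)‖ ≤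
        ‖∑ n ∈ Finset.Icc 1 N, (rs (ext ε) ω n : ℂ) * e (n * x) - ∑ n ∈ Finset.Icc 1 N, (rs (ext ε) ω n : ℂ) * e (n * y)‖ +
        ‖∑ n ∈ Finset.Icc 1 N, (rs (ext ε) ω n : ℂ) * e (n * y)‖ := by
      have := norm_add_le (∑ n ∈ Finset.Icc 1 N, (rs (ext ε) ω n : ℂ) * e (n * x) -
        ∑ n ∈ Finset.Icc 1 N, (rs (ext ε) ω n : ℂ) * e (n * y)) (∑ n ∈ Finset.Icc 1 N, (rs (ext ε) ω n : ℂ) * e (n * y))
      rwa [sub_add_cancel] at this
    have h5 := AS_sum_eq (ext ε) ω hω (2 ^ (2 * 2 ^ i)) N hNM (x := y)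
    rw [h5, ← hT] at h4
    rw [h5, ← hT] at hsl
    have h6 : r * (1 + δ) * tg N = r * (1 + d) * tg N + r * d * tg N + r * d * tg N := by
      rw [hd]
      ring
    have h7 : 0 < r * d * tg N := by positivity
    have h8 : ‖∑ n ∈ Finset.Icc 1 N, (rs (ext ε) ω n : ℂ) * e (n * x) - SN N T y‖ ≤ r * d * tg N := hsl.trans h3
    linarith
  -- the conclusion
  have h3 := ENNReal.toReal_le_of_le_ofReal (by positivity) hvol
  refine h3.trans ?_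
  have hrr : r ^ 2 ≤ 1 := by nlinarith
  calc (cnt (2 ^ (a + ρ)) (fun x => ∃ N : ℕ, 2 ^ a ≤ N ∧ N ≤ 2 ^ (a + 1) ∧
        r * (1 + d) * tg N < ‖SN N T x‖) : ℝ) / ((2 ^ (a + ρ) : ℕ) : ℝ)
      ≤ ((2 : ℝ) ^ a) ^ (1 - r ^ 2 + d) / N := by
        apply div_le_div₀ (by positivity) hcnt hN0r
        rw [hGr]
        have h4 : (2 : ℝ) ≤ 2 ^ ρ := by
          calc (2 : ℝ) = 2 ^ 1 := by norm_num
            _ ≤ 2 ^ ρ := pow_le_pow_right₀ (by norm_num) (by omega)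
        nlinarith
    _ ≤ (N : ℝ) ^ (1 - r ^ 2 + δ) / N := by
        apply div_le_div_of_nonneg_right _ hN0r.le
        calc ((2 : ℝ) ^ a) ^ (1 - r ^ 2 + d) ≤ (N : ℝ) ^ (1 - r ^ 2 + d) := by
              apply Real.rpow_le_rpow h2a.le _ (by linarith)
              exact_mod_cast hb1
          _ ≤ (N : ℝ) ^ (1 - r ^ 2 + δ) := by
              apply Real.rpow_le_rpow_of_exponent_le (by exact_mod_cast hN1')
              rw [hd]
              linarith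
    _ = (N : ℝ) ^ (-(r ^ 2) + δ) := by
        rw [show 1 - r ^ 2 + δ = 1 + (-(r ^ 2) + δ) by ring, Real.rpow_add hN0r, Real.rpow_one]
        field_simp

end Pool.Agent.Helper51.EA
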